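import Mathlib
import Pool.Agent.H25.Lots

set_option autoImplicit false

universe u

namespace Pool.Agent.Results.MP_4e3057_lc.NoUniversal

open Cardinal

theorem result (U : Type u) [LinearOrder U] [TopologicalSpace U] [OrderTopology U]
    (hU : ℵ₀ < #U) :
    ∃ (L : Type u) (_ : LinearOrder L) (_ : TopologicalSpace L) (_ : OrderTopology L),
      #L = #U ∧ ¬ ∃ f : L → U, Function.Injective f ∧ Monotone f ∧ Continuous f := by
  obtain ⟨L, inst, h1, h2⟩ := Pool.Agent.H25.Lots.main U hU
  letI : TopologicalSpace L := Preorder.topology L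
  haveI : OrderTopology L := ⟨rfl⟩
  refine ⟨L, inst, inferInstance, inferInstance, h1, ?_⟩
  rintro ⟨f, hf1, hf2, hf3⟩
  exact h2 f (Pool.Agent.H25.Lots.gd_of_continuous f (hf2.strictMono_of_injective hf1) hf3)

end Pool.Agent.Results.MP_4e3057_lc.NoUniversal
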